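import Pool.Agent.H20.SIF.Triv

/-! Unordered form of MP_008206_co: `D = 6`, `w = 3` (`x = 8`). -/

set_option autoImplicit false

namespace SIFU
open Finset

variable {P Q : Type} [Fintype P] [Fintype Q] [DecidableEq P] [DecidableEq Q]

namespace Ctx

variable {A : P → Q → Bool} {k x D w : ℕ} {p : P} {R : Q → Finset P} {C : Q → Finset Q}

/-- the exact gap -/
theorem exactT (h : Ctx A k x p R C) (hp : (Nr A p).card = D) (hDw : D + w = x + 1) {c : Q}
    (hc : c ∈ Nr A p) :
    ((E A).card : ℤ) + w + ∑ u ∈ Nr A p, ((Ww A R u \ I0 A p R).card : ℤ) +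
      (w + 1) * (I0 A p R).card +
      ∑ r ∈ (univ \ R c) \ I0 A p R, ((w : ℤ) + 1 - (Oo A p r).card) +
      ∑ r ∈ I0 A p R, (((Hs A p R r).card : ℤ) - (Oo A p r).card) =
      ((x : ℤ) + 1) ^ 2 + (k + x - 1) + ∑ v ∈ Ac A p C c, ((R c ∩ Nc A v).card : ℤ) := by
  have hE := h.Ecount hp
  have hORc := h.ORc hc
  have hIR : I0 A p R ⊆ univ \ R c := by
    intro r hr
    exact mem_sdiff.2 ⟨mem_univ _, I0_notR hc hr⟩
  have h1 : ∑ r, (Oo A p r).card = ∑ r ∈ (univ \ R c) \ I0 A p R, (Oo A p r).card +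
      ∑ r ∈ I0 A p R, (Oo A p r).card + ∑ r ∈ R c, (Oo A p r).card := by
    rw [sum_sdiff hIR, sum_sdiff (subset_univ _)]
  have h2 : ∑ r, (Hs A p R r).card = ∑ u ∈ Nr A p, (Ww A R u \ I0 A p R).card +
      ∑ r ∈ I0 A p R, (Hs A p R r).card := by
    rw [← sumHs, sum_sdiff (subset_univ _)]
  have h3 : ((univ \ R c) \ I0 A p R).card + (I0 A p R).card = x := by
    have h4 := card_sdiff_add_card_eq_card hIR
    have h5 := card_sdiff_add_card_eq_card (subset_univ (R c))
    rw [card_univ, h.cP, (h.cp c hc).cR] at h5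
    omega
  rw [sum_sub_distrib, sum_sub_distrib, sum_const, nsmul_eq_mul]
  rw [h1, h2] at hE
  zify at hE hORc h3 hDw
  have h6 : (((univ \ R c) \ I0 A p R).card : ℤ) = x - (I0 A p R).card := by linarith
  rw [h6]
  have h7 : (x : ℤ) = D + w - 1 := by linarith
  rw [h7] at hE ⊢
  linarith

theorem case36 (h : Ctx A k 8 p R C) (hp : (Nr A p).card = 6) (hR : ∀ r, (Nr A r).card ≤ 6)
    (hC : ∀ c, (Nc A c).card ≤ 6) (hl : ∀ u ∈ Nr A p, 1 ≤ (Ww A R u \ I0 A p R).card)
    {c : Q} (hc : c ∈ Nr A p) (hlc : (Ww A R c \ I0 A p R).card = 1) :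
    (E A).card ≤ (8 + 1) ^ 2 + (k + 8 - 1) := by
  by_contra hcon
  have hE : k + 89 ≤ (E A).card := by omega
  have hWI : ∀ u, (Ww A R u).card = (Ww A R u \ I0 A p R).card + (Ww A R u ∩ I0 A p R).card := by
    intro u
    have := card_inter_add_card_sdiff (Ww A R u) (I0 A p R)
    omega
  have hI2 : 2 ≤ (I0 A p R).card := by
    have h1 := h.cardW hc
    have h2 := hC c
    have h3 := hWI c
    have h4 : (Ww A R c ∩ I0 A p R).card ≤ (I0 A p R).card := card_le_card inter_subset_right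
    omega
  have hDw : 6 + 3 = 8 + 1 := rfl
  -- everything is tight
  have tight : ∀ u ∈ Nr A p,
      ∑ u ∈ Nr A p, (Ww A R u \ I0 A p R).card = 6 ∧ (I0 A p R).card = 2 ∧
      (∀ r ∈ (univ \ R u) \ I0 A p R, (Oo A p r).card = 4) ∧
      ∑ v ∈ Ac A p C u, (R u ∩ Nc A v).card = 18 := by
    intro u hu
    have h1 := h.exactT (w := 3) hp hDw hu
    push_cast at h1
    have h2 : 6 ≤ ∑ u ∈ Nr A p, (Ww A R u \ I0 A p R).card := by
      calc 6 = ∑ u ∈ Nr A p, 1 := by rw [sum_const, hp]; rfl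
        _ ≤ _ := sum_le_sum hl
    have h3 : ∀ r ∈ (univ \ R u) \ I0 A p R, (0 : ℤ) ≤ (4 : ℤ) - (Oo A p r).card := by
      intro r hr
      rw [mem_sdiff, mem_sdiff] at hr
      have h4 := h.out_le (w := 3) hp hDw (by rintro rfl; exact hr.1.2 (h.pR u hu)) hr.2
      zify at h4
      linarith
    have h4 := sum_nonneg h3
    have h5 : (0 : ℤ) ≤ ∑ r ∈ I0 A p R, (((Hs A p R r).card : ℤ) - (Oo A p r).card) := by
      apply sum_nonneg
      intro r hr
      have := h.out_le0 hp hR hr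
      zify at this
      linarith
    have h6 : ∑ v ∈ Ac A p C u, (R u ∩ Nc A v).card ≤ 18 := by
      calc ∑ v ∈ Ac A p C u, (R u ∩ Nc A v).card ≤ ∑ v ∈ Ac A p C u, 6 :=
            sum_le_sum (fun v _ => (card_le_card inter_subset_right).trans (hC v))
        _ = 18 := by rw [sum_const, h.cardAc (w := 3) hp hDw hu]; rfl
    zify at h2 hE hI2 h6
    have h7 : ∑ r ∈ (univ \ R u) \ I0 A p R, ((4 : ℤ) - (Oo A p r).card) = 0 := by
      linarith
    refine ⟨?_, ?_, ?_, ?_⟩
    · zify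
      linarith
    · zify
      linarith
    · intro r hr
      have h8 := (sum_eq_zero_iff_of_nonneg h3).1 h7 r hr
      zify
      linarith
    · zify
      linarith
  have hI := (tight c hc).2.1
  have hl1 : ∀ u ∈ Nr A p, (Ww A R u \ I0 A p R).card = 1 := by
    have h1 := (tight c hc).1
    have h2 : ∑ u ∈ Nr A p, 1 = ∑ u ∈ Nr A p, (Ww A R u \ I0 A p R).card := by
      rw [h1, sum_const, hp]; rfl
    intro u hu
    exact ((sum_eq_sum_iff_of_le hl).1 h2 u hu).symm
  have hdeg : ∀ u ∈ Nr A p, (Nc A u).card = 6 ∧ I0 A p R ⊆ Ww A R u := by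
    intro u hu
    have h1 := h.cardW hu
    have h2 := hC u
    have h3 := hWI u
    rw [hl1 u hu] at h3
    have h4 : (Ww A R u ∩ I0 A p R).card ≤ (I0 A p R).card := card_le_card inter_subset_right
    constructor
    · omega
    · have h5 : Ww A R u ∩ I0 A p R = I0 A p R := by
        apply eq_of_subset_of_card_le inter_subset_right
        omega
      rw [← h5]
      exact inter_subset_left
  -- rows meeting `N(p)`
  have hb : ∀ r, r ≠ p → 1 ≤ (Nr A p ∩ Nr A r).card →
      (Oo A p r).card = 4 ∧ (Nr A p ∩ Nr A r).card ≤ 2 := by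
    intro r hrp h1
    obtain ⟨u, hu⟩ := card_pos.1 h1
    rw [mem_inter, mem_Nr (r := r)] at hu
    have h2 : r ∉ R u := by
      intro h3
      have := h.zero hu.1 h3 hrp
      rw [hu.2] at this
      simp at this
    have h3 : r ∉ I0 A p R := by
      intro h4
      have h5 := (hdeg u hu.1).2 h4
      simp only [Ww, mem_filter, mem_univ, true_and] at h5
      rw [hu.2] at h5
      simp at h5
    have h4 := (tight u hu.1).2.2.1 r
      (mem_sdiff.2 ⟨mem_sdiff.2 ⟨mem_univ _, h2⟩, h3⟩)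
    refine ⟨h4, ?_⟩
    have h5 := degsplit A p r
    have h6 := hR r
    unfold Oo at h4
    omega
  have hb2 : ∀ r, r ≠ p → (Nr A p ∩ Nr A r).card ≤ 2 := by
    intro r hr
    by_cases h1 : 1 ≤ (Nr A p ∩ Nr A r).card
    · exact (hb r hr h1).2
    · omega
  -- double counting
  have hcount : ∑ r, (Nr A p ∩ Nr A r).card = 36 := by
    have h1 := card_comm2 (univ : Finset P) (Nr A p) (fun r u => A r u = true)
    have h2 : ∀ r, Nr A p ∩ Nr A r = (Nr A p).filter (fun u => A r u = true) := by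
      intro r
      ext u
      rw [mem_inter, mem_filter, mem_Nr (r := r)]
    simp only [h2]
    rw [h1]
    have h3 : ∀ u ∈ Nr A p, ((univ : Finset P).filter (fun r => A r u = true)).card = 6 := by
      intro u hu
      exact (hdeg u hu).1
    rw [sum_congr rfl h3, sum_const, hp]
    rfl
  have hsplit := h.rowsplit hc (fun r => (Nr A p ∩ Nr A r).card)
  beta_reduce at hsplit
  have hpR := h.pR c hc
  have hRc : ∑ r ∈ R c, (Nr A p ∩ Nr A r).card = 6 + ∑ r ∈ (R c).erase p,
      (Nr A p ∩ Nr A r).card := by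
    rw [← add_sum_erase _ _ hpR, inter_self, hp]
  have hO : ∑ r ∈ R c, (Oo A p r).card = ∑ r ∈ (R c).erase p, (Oo A p r).card := by
    rw [← add_sum_erase _ _ hpR, Oop, card_empty, zero_add]
  have hcardR : ((R c).erase p).card + 1 = k := by
    rw [card_erase_add_one hpR, (h.cp c hc).cR]
  have hORc := h.ORc hc
  rw [(tight c hc).2.2.2, hO] at hORc
  have h3b : 3 * ∑ r ∈ (R c).erase p, (Nr A p ∩ Nr A r).card + 2 * ((R c).erase p).card ≤
      2 * ∑ r ∈ (R c).erase p, (Oo A p r).card := by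
    rw [mul_sum, mul_sum, mul_comm 2 ((R c).erase p).card, ← smul_eq_mul (((R c).erase p).card),
      ← sum_const, ← sum_add_distrib]
    apply sum_le_sum
    intro r hr
    rw [mem_erase] at hr
    have h1 := h.outcard hc hr.2 hr.1
    have h2 : 1 ≤ (Oo A p r).card := by
      unfold Oo
      omega
    by_cases h3 : 1 ≤ (Nr A p ∩ Nr A r).card
    · have h4 := hb r hr.1 h3
      omega
    · omega
  have hN1 : ∑ r ∈ (Nc A c).erase p, (Nr A p ∩ Nr A r).card ≤ 10 := by
    have hpc : p ∈ Nc A c := mem_Nc.2 (mem_Nr.1 hc)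
    have h1 : ((Nc A c).erase p).card = 5 := by
      rw [card_erase_of_mem hpc, (hdeg c hc).1]
    calc ∑ r ∈ (Nc A c).erase p, (Nr A p ∩ Nr A r).card ≤ ∑ r ∈ (Nc A c).erase p, 2 :=
          sum_le_sum (fun r hr => hb2 r (ne_of_mem_erase hr))
      _ = 10 := by rw [sum_const, h1]; rfl
  have hW : ∑ r ∈ Ww A R c, (Nr A p ∩ Nr A r).card ≤ 6 := by
    have h1 := h.cardW hc
    rw [(hdeg c hc).1] at h1
    have h2 : (Ww A R c).card = 3 := by omega
    calc ∑ r ∈ Ww A R c, (Nr A p ∩ Nr A r).card ≤ ∑ r ∈ Ww A R c, 2 := by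
          apply sum_le_sum
          intro r hr
          apply hb2
          rintro rfl
          exact pW hc hr
      _ = 6 := by rw [sum_const, h2]; rfl
  omega

end Ctx

end SIFU
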