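import Pool.Agent.H25.SIF.Ar25

/-! Arithmetic for MP_008206_co: the final ranges. `T` is the gap. -/

set_option autoImplicit false

namespace SIFU

/-- `w ≤ 2`, or `D ≤ w + 2` -/
theorem fin_small {T w l d D k : ℤ} (hw : 0 ≤ w) (hd : 0 ≤ d) (hl : 0 ≤ l) (hD0 : 0 ≤ D)
    (hA : w * (d - 1 - l) + 2 * d ≤ T)
    (hB : d * (w + 2) - d * (k - 1) + (D - 2 * w - 1 + d) * l ≤ T)
    (hC : (D - w - 1) * l - w * (D - w - 2) ≤ T)
    (hC2 : w - w * D + D * l ≤ T)
    (h : w ≤ 2 ∨ D ≤ w + 2) : 0 ≤ T := by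
  have key : D ≤ w + 2 → 0 ≤ T := by
    intro h1
    rcases lt_or_ge w l with h2 | h2
    · have h3 : 0 ≤ D * (l - w) := mul_nonneg hD0 (by omega)
      nlinarith
    · have h3 : 0 ≤ (w + 2 - D) * (w - l) := mul_nonneg (by omega) (by omega)
      nlinarith
  rcases h with h1 | h1
  · rcases le_or_gt D (w + 2) with h2 | h2
    · exact key h2
    have hw3 : w = 0 ∨ w = 1 ∨ w = 2 := by omega
    rcases eq_or_lt_of_le hl with h3 | h3
    · -- l = 0
      subst h3
      rcases eq_or_lt_of_le hd with h4 | h4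
      · subst h4
        simpa using hB
      · have h5 : 0 ≤ w * (d - 1) := mul_nonneg hw (by omega)
        nlinarith
    rcases hw3 with rfl | rfl | rfl
    · omega
    · -- w = 1
      have h5 : 0 ≤ (D - 2) * (l - 1) := mul_nonneg (by omega) (by omega)
      nlinarith
    · -- w = 2
      rcases le_or_gt 2 l with h4 | h4
      · have h5 : 0 ≤ (D - 3) * (l - 2) := mul_nonneg (by omega) (by omega)
        nlinarith
      · have hl1 : l = 1 := by omega
        subst hl1
        rcases eq_or_lt_of_le hd with h5 | h5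
        · subst h5
          omega
        · omega
  · exact key h1

/-- the final form: `k ≤ 7`, or `x ≤ 7`, or the linear range -/
theorem fin20 {T w l d D k x : ℤ} (hk : 2 ≤ k) (hx : 0 ≤ x) (hw : 0 ≤ w) (hd : 0 ≤ d)
    (hl : 0 ≤ l) (hD0 : 0 ≤ D) (hDw : D + w = x + 1)
    (hA : w * (d - 1 - l) + 2 * d ≤ T)
    (hB : d * (w + 2) - d * (k - 1) + (D - 2 * w - 1 + d) * l ≤ T)
    (hC : (D - w - 1) * l - w * (D - w - 2) ≤ T)
    (hC2 : w - w * D + D * l ≤ T)
    (hN : (x + 1) ^ 2 + (k + x - 1) - (k + x) * D ≤ T)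
    (h : k ≤ 7 ∨ x ≤ 7 ∨ (k ≤ x + 8 ∧ k ^ 2 + 2 * k * x ≤ x ^ 2 + 9 * x + 5 * k)) : 0 ≤ T := by
  -- the linear case
  have lin : 2 * w + 1 ≤ D → w + k - 3 ≤ D → 0 ≤ T := by
    intro h1 h2
    rcases lt_or_ge l d with h3 | h3
    · have h4 : 0 ≤ w * (d - 1 - l) := mul_nonneg hw (by omega)
      linarith
    · have h4 : 0 ≤ (D - 2 * w - 1 + d) * (l - d) := mul_nonneg (by omega) (by omega)
      have h5 : 0 ≤ d * (D - w - k + 3) := mul_nonneg hd (by omega)
      have h6 : 0 ≤ d * (d - 1) := by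
        rcases eq_or_lt_of_le hd with h | h
        · rw [← h]; simp
        · exact mul_nonneg hd (by omega)
      nlinarith
  have small := fin_small hw hd hl hD0 hA hB hC hC2
  rcases le_or_gt w 2 with h1 | h1
  · exact small (Or.inl h1)
  rcases le_or_gt D (w + 2) with h2 | h2
  · exact small (Or.inr h2)
  rcases h with h3 | h3 | ⟨h3, h4⟩
  · -- k ≤ 7
    by_cases h5 : (k - w - 2) * x ≤ k * w
    · have h6 : D = x + 1 - w := by omega
      subst h6
      nlinarith
    push Not at h5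
    have h6 : w ≤ 4 := by
      by_contra h7
      have h8 : 0 ≤ (w + 2 - k) * x := mul_nonneg (by omega) hx
      have h9 : 0 ≤ k * w := mul_nonneg (by omega) hw
      linarith
    have h7 : w = 3 ∨ w = 4 := by omega
    rcases h7 with rfl | rfl
    · have h8 : k = 2 ∨ k = 3 ∨ k = 4 ∨ k = 5 ∨ k = 6 ∨ k = 7 := by omega
      rcases h8 with rfl | rfl | rfl | rfl | rfl | rfl
      · omega
      · omega
      · omega
      · omega
      · apply lin <;> omega
      · apply lin <;> omega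
    · have h8 : k = 2 ∨ k = 3 ∨ k = 4 ∨ k = 5 ∨ k = 6 ∨ k = 7 := by omega
      rcases h8 with rfl | rfl | rfl | rfl | rfl | rfl
      · omega
      · omega
      · omega
      · omega
      · omega
      · apply lin <;> omega
  · omega
  · rcases range25 hk hx hw hDw h3 h4 with ⟨h5, h6⟩ | h5
    · exact lin h5 h6
    · linarith

end SIFU
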