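import Pool.Agent.H20.SIF.Full21

/-! Exact ranges of MP_008206_co: the wrapper for the case `D = w + 3` (helper26, helper47). -/

set_option autoImplicit false

namespace SIFU
open Finset

/-- the case `D = w + 3`, `w ≥ 3` of a fullest line, for all `k ≥ 2` -/
def Tau3 : Prop := ∀ {P Q : Type} [Fintype P] [Fintype Q] [DecidableEq P] [DecidableEq Q]
    {A : P → Q → Bool} {k x D w : ℕ} {p : P} {R : Q → Finset P} {C : Q → Finset Q},
    Ctx A k x p R C → 2 ≤ k → (Nr A p).card = D → D + w = x + 1 → D = w + 3 → 3 ≤ w →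
    (∀ r, (Nr A r).card ≤ D) → (∀ c, (Nc A c).card ≤ D) →
    (E A).card ≤ (x + 1) ^ 2 + (k + x - 1)

theorem row22 (hTau : Tau3) {P Q : Type} [Fintype P] [Fintype Q] [DecidableEq P] [DecidableEq Q]
    {A : P → Q → Bool} {k x D w : ℕ} (cP : Fintype.card P = k + x)
    (cQ : Fintype.card Q = k + x) (hU : U A k) (hk : 2 ≤ k) (hR : ∀ r, (Nr A r).card ≤ D)
    (hC : ∀ c, (Nc A c).card ≤ D) (hDw : D + w = x + 1) (hD : 1 ≤ D) (p : P)
    (hp : (Nr A p).card = D) (hcase : x = 10 ∨ x = 12) :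
    (E A).card ≤ (x + 1) ^ 2 + (k + x - 1) := by
  obtain ⟨R, C, c, κ, d, l, f, ι, q, Y, ⟨h, hc, hmin, hlc⟩, e1, e2, e3, e4, e5, e6, _, e8, e9⟩ :=
    frame20 cP cQ hU hR hC hDw hD p hp
  have t1 := h.triv_bound hp hDw hR hC hmin hc hlc
  have t2 := h.triv_bound2 hp hDw hR hC hmin hc
  obtain ⟨k1, hk1⟩ : ∃ k1, k1 + 1 = k := ⟨k - 1, by omega⟩
  have hk2 : k - 1 = k1 := by omega
  -- small `w`
  have small : w ≤ 2 ∨ D ≤ w + 2 → (E A).card ≤ (x + 1) ^ 2 + (k + x - 1) := by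
    intro hs
    obtain ⟨B, hB⟩ : ∃ B, B = (x + 1) ^ 2 + (k + x - 1) := ⟨_, rfl⟩
    have hBz : (B : ℤ) = ((x : ℤ) + 1) ^ 2 + ((k : ℤ) + x - 1) := by
      obtain ⟨m, hm⟩ : ∃ m, m + 1 = k + x := ⟨k + x - 1, by omega⟩
      have hm2 : k + x - 1 = m := by omega
      rw [hB, hm2]
      zify at hm
      push_cast
      linarith
    rw [← hBz] at t1 t2
    rw [← hB] at e8 e9 ⊢
    rw [hk2] at e9
    have hs' : (w : ℤ) ≤ 2 ∨ (D : ℤ) ≤ w + 2 := by
      rcases hs with h1 | h1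
      · left; exact_mod_cast h1
      · right; exact_mod_cast h1
    zify at e1 e4 e5 e8 e9 hk1
    have i1 : (0 : ℤ) ≤ w := Int.natCast_nonneg w
    have i2 : (0 : ℤ) ≤ d := Int.natCast_nonneg d
    have i3 : (0 : ℤ) ≤ κ := Int.natCast_nonneg κ
    have i4 : (0 : ℤ) ≤ l := Int.natCast_nonneg l
    have i5 : (0 : ℤ) ≤ f := Int.natCast_nonneg f
    have i6 : (0 : ℤ) ≤ (ι : ℤ) * l := by positivity
    have i7 : (0 : ℤ) ≤ ((w : ℤ) - d - κ) * l := mul_nonneg (by linarith) i4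
    have hk3 : (k : ℤ) - 1 = k1 := by linarith
    have hT := fin_small (T := (B : ℤ) - (E A).card) (w := w) (l := l) (d := d) (D := D)
      (k := k) i1 i2 i4 (Int.natCast_nonneg D) (by linarith) (by rw [hk3]; linarith)
      (by linarith) (by linarith) hs'
    have h9 : ((E A).card : ℤ) ≤ (B : ℤ) := by linarith
    exact_mod_cast h9
  by_cases hw2 : w ≤ 2
  · exact small (Or.inl hw2)
  by_cases hDw2 : D ≤ w + 2
  · exact small (Or.inr hDw2)
  by_cases hDw3 : D = w + 3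
  · exact hTau h hk hp hDw hDw3 (by omega) hR hC
  · refine row84 cP cQ hU hk hR hC hDw hD p hp ?_ (Or.inl ?_) <;> omega

theorem extra22 (hTau : Tau3) {P Q : Type} [Fintype P] [Fintype Q] [DecidableEq P]
    [DecidableEq Q]
    {A : P → Q → Bool} {k x : ℕ} (cP : Fintype.card P = k + x)
    (cQ : Fintype.card Q = k + x) (hU : U A k) (hk : 2 ≤ k)
    (hcase : x = 10 ∨ x = 12) :
    (E A).card ≤ (x + 1) ^ 2 + (k + x - 1) := by
  rcases (E A).eq_empty_or_nonempty with h | ⟨⟨r0, c0⟩, h0⟩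
  · rw [h]; simp
  have h0' : A r0 c0 = true := by simpa [E] using h0
  obtain ⟨p, _, hp⟩ := exists_max_image univ (fun r => (Nr A r).card) ⟨r0, mem_univ r0⟩
  obtain ⟨v, _, hv⟩ := exists_max_image univ (fun c => (Nc A c).card) ⟨c0, mem_univ c0⟩
  have h1 : 1 ≤ (Nr A p).card :=
    le_trans (card_pos.2 ⟨c0, mem_Nr.2 h0'⟩) (hp r0 (mem_univ _))
  have h2 : 1 ≤ (Nc A v).card :=
    le_trans (card_pos.2 ⟨r0, mem_Nc.2 h0'⟩) (hv c0 (mem_univ _))
  rcases le_total (Nc A v).card (Nr A p).card with h3 | h3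
  · have hDx : (Nr A p).card ≤ x + 1 := deg_le cQ hU p
    obtain ⟨w, hw⟩ : ∃ w, (Nr A p).card + w = x + 1 := ⟨x + 1 - (Nr A p).card, by omega⟩
    exact row22 hTau cP cQ hU hk (fun r => hp r (mem_univ _))
      (fun c => (hv c (mem_univ _)).trans h3) hw h1 p rfl hcase
  · have hswapE : (E (fun c r => A r c)).card = (E A).card := by
      rw [card_E_rows (fun c r => A r c), card_E_cols A]
      rfl
    have hDx : (Nc A v).card ≤ x + 1 := deg_le (A := fun c r => A r c) cP (U_swap hU) v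
    obtain ⟨w, hw⟩ : ∃ w, (Nc A v).card + w = x + 1 := ⟨x + 1 - (Nc A v).card, by omega⟩
    have h4 := row22 hTau (A := fun c r => A r c) (D := (Nc A v).card) cQ cP (U_swap hU) hk
      (fun c => hv c (mem_univ _)) (fun r => (hp r (mem_univ _)).trans h3) hw h2 v rfl hcase
    rw [hswapE] at h4
    exact h4

/-- **Exact ranges**: `full21` with `x = 10` and `x = 12` added. -/
theorem full22 (hTau : Tau3) {P Q : Type} [Fintype P] [Fintype Q] [DecidableEq P]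
    [DecidableEq Q] {A : P → Q → Bool} {k x : ℕ} (cP : Fintype.card P = k + x)
    (cQ : Fintype.card Q = k + x) (hU : U A k) (hk : 2 ≤ k)
    (hc : (k ≤ x + 8 ∧ k ^ 2 + 2 * k * x ≤ x ^ 2 + 9 * x + 5 * k) ∨
      (k ≤ 9 ∧ 6 ≤ x) ∨ x = 6 ∨ x = 7 ∨ x = 8 ∨ x = 9 ∨ x = 10 ∨ x = 12) :
    (E A).card ≤ (x + 1) ^ 2 + (k + x - 1) := by
  rcases hc with h | h | h | h | h | h | h | h
  · exact full21 cP cQ hU hk (Or.inl h)
  · exact full21 cP cQ hU hk (Or.inr (Or.inl h))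
  · exact full21 cP cQ hU hk (Or.inr (Or.inr (Or.inl h)))
  · exact full21 cP cQ hU hk (Or.inr (Or.inr (Or.inr (Or.inl h))))
  · exact full21 cP cQ hU hk (Or.inr (Or.inr (Or.inr (Or.inr (Or.inl h)))))
  · exact full21 cP cQ hU hk (Or.inr (Or.inr (Or.inr (Or.inr (Or.inr h)))))
  · exact extra22 hTau cP cQ hU hk (Or.inl h)
  · exact extra22 hTau cP cQ hU hk (Or.inr h)

end SIFU
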