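import Pool.Agent.H20.SIF.Full22

/-! Unordered form of MP_008206_co: `D = w + 3`, `w ≥ 3` (helper26, helper47). -/

set_option autoImplicit false

namespace SIFU
open Finset

/-- one row -/
theorem tau_row {w b o D : ℤ} (hw : 3 ≤ w) (hD : D = w + 3) (hb : 0 ≤ b) (ho : 1 ≤ o)
    (ho2 : o ≤ w + 1) (hbo : b + o ≤ D) :
    3 * w * b ≤ 6 * (o - 1) + (w + 2) * ((w + 1 - o) * b) := by
  obtain ⟨e, he⟩ : ∃ e, e = w + 1 - o := ⟨_, rfl⟩
  have ho' : o = w + 1 - e := by linarith
  subst ho'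
  have h0 : 0 ≤ e := by linarith
  have h1 : b ≤ 2 + e := by linarith
  have h2 : e ≤ w := by linarith
  have h3 : w + 1 - (w + 1 - e) = e := by ring
  rw [h3]
  rcases le_or_gt 3 e with h4 | h4
  · have h5 : 0 ≤ (w + 2) * ((e - 3) * b) :=
      mul_nonneg (by linarith) (mul_nonneg (by linarith) hb)
    nlinarith
  · have h5 : e = 0 ∨ e = 1 ∨ e = 2 := by omega
    rcases h5 with rfl | rfl | rfl
    · nlinarith [mul_nonneg (show (0 : ℤ) ≤ w by linarith) (show (0 : ℤ) ≤ 2 - b by linarith)]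
    · nlinarith [mul_nonneg (show (0 : ℤ) ≤ w - 1 by linarith) (show (0 : ℤ) ≤ 3 - b by linarith)]
    · rcases le_or_gt 4 w with h6 | h6
      · nlinarith [mul_nonneg (show (0 : ℤ) ≤ w - 4 by linarith)
          (show (0 : ℤ) ≤ 4 - b by linarith)]
      · have h7 : w = 3 := by omega
        subst h7
        nlinarith

/-- the final arithmetic -/
theorem tau_fin {w D x j H β : ℤ} (hw : 3 ≤ w) (hD : D = w + 3) (hx : D + w = x + 1)
    (hj : 0 ≤ j) (hH : 0 ≤ H) (hH2 : D * (w - j) ≤ H) (hβ : β = w * D - (w + 1) * (j + 1) - H)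
    (h : 3 * w * (D * (x - j) - H) ≤ 6 * (w * D + w * (x - j)) + (w + 2) * (D * β)) : False := by
  have hx' : x = 2 * w + 2 := by linarith
  subst hx' hD
  have hH' : H = w * (w + 3) - (w + 1) * (j + 1) - β := by linarith
  subst hH'
  have h1 : 3 * w * (w ^ 2 - 3) ≤ (w ^ 2 + 2 * w + 6) * β := by nlinarith
  have h2 : β ≤ w - 1 := by
    rcases le_or_gt j w with h3 | h3
    · nlinarith
    · have : w + 1 ≤ j := by omega
      nlinarith
  have h3 : 0 < w ^ 2 + 2 * w + 6 := by positivity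
  have h4 : (w ^ 2 + 2 * w + 6) * β ≤ (w ^ 2 + 2 * w + 6) * (w - 1) :=
    mul_le_mul_of_nonneg_left h2 h3.le
  have h5 : 0 < 2 * w ^ 3 - w ^ 2 - 13 * w + 6 := by
    nlinarith [mul_nonneg (show (0 : ℤ) ≤ w - 3 by linarith) (show (0 : ℤ) ≤ w by linarith),
      mul_nonneg (mul_nonneg (show (0 : ℤ) ≤ w - 3 by linarith)
        (show (0 : ℤ) ≤ w - 3 by linarith)) (show (0 : ℤ) ≤ w by linarith)]
  nlinarith

theorem tau3 : Tau3 := by
  intro P Q _ _ _ _ A k x D w p R C h hk hp hDw hD3 hw hR hC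
  by_contra hcon
  have hkx : 1 ≤ k + x := by omega
  obtain ⟨B, hB⟩ : ∃ B, B = (x + 1) ^ 2 + (k + x - 1) := ⟨_, rfl⟩
  have hBz : (B : ℤ) = ((x : ℤ) + 1) ^ 2 + ((k : ℤ) + x - 1) := by
    obtain ⟨m, hm⟩ : ∃ m, m + 1 = k + x := ⟨k + x - 1, by omega⟩
    have hm2 : k + x - 1 = m := by omega
    rw [hB, hm2]
    zify at hm
    push_cast
    linarith
  rw [← hB] at hcon
  have hE : (B : ℤ) + 1 ≤ (E A).card := by
    have : B + 1 ≤ (E A).card := by omega
    exact_mod_cast this
  have hne : (Nr A p).Nonempty := by rw [← card_pos, hp]; omega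
  obtain ⟨c, hc⟩ := hne
  set H : ℤ := ∑ u ∈ Nr A p, ((Ww A R u \ I0 A p R).card : ℤ) with hHdef
  set j : ℤ := ((I0 A p R).card : ℤ) with hj
  set β : ℤ := w * D - (w + 1) * (j + 1) - H with hβ
  have hH0 : 0 ≤ H := sum_nonneg (fun u _ => Int.natCast_nonneg _)
  -- (i)
  have hI : ∀ u ∈ Nr A p,
      ∑ r ∈ (univ \ R u) \ I0 A p R, ((w : ℤ) + 1 - (Oo A p r).card) ≤ β := by
    intro u hu
    have h1 := h.exactT hp hDw hu
    have h2 : (0 : ℤ) ≤ ∑ r ∈ I0 A p R, (((Hs A p R r).card : ℤ) - (Oo A p r).card) := by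
      apply sum_nonneg
      intro r hr
      have := h.out_le0 hp hR hr
      zify at this
      linarith
    have h3 : ∑ v ∈ Ac A p C u, ((R u ∩ Nc A v).card : ℤ) ≤ w * D := by
      have h4 : ∑ v ∈ Ac A p C u, (R u ∩ Nc A v).card ≤ w * D := by
        calc ∑ v ∈ Ac A p C u, (R u ∩ Nc A v).card ≤ ∑ v ∈ Ac A p C u, D :=
              sum_le_sum (fun v _ => (card_le_card inter_subset_right).trans (hC v))
          _ = w * D := by rw [sum_const, h.cardAc hp hDw hu, smul_eq_mul]
      exact_mod_cast h4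
    rw [← hHdef, ← hj, ← hBz] at h1
    rw [hβ]
    linarith
  -- live rows
  set L := (univ \ I0 A p R).erase p with hL
  have hLmem : ∀ r, r ∈ L ↔ r ≠ p ∧ r ∉ I0 A p R := by
    intro r
    rw [hL, mem_erase, mem_sdiff]
    simp
  have ho1 : ∀ r ∈ L, 1 ≤ (Oo A p r).card := by
    intro r hr
    rw [hLmem] at hr
    have h1 : (G A p R r).Nonempty := by
      rw [nonempty_iff_ne_empty]
      intro h2
      apply hr.2
      unfold I0
      rw [mem_filter]
      exact ⟨mem_univ _, hr.1, h2⟩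
    obtain ⟨u, hu⟩ := h1
    simp only [G, mem_filter] at hu
    have h2 := h.outcard hu.1 hu.2 hr.1
    unfold Oo
    omega
  have ho2 : ∀ r ∈ L, (Oo A p r).card ≤ w + 1 := by
    intro r hr
    rw [hLmem] at hr
    exact h.out_le hp hDw hr.1 hr.2
  have hrow : ∀ r ∈ L, 3 * (w : ℤ) * ((Nr A p ∩ Nr A r).card : ℤ) ≤
      6 * (((Oo A p r).card : ℤ) - 1) +
        ((w : ℤ) + 2) * (((w : ℤ) + 1 - (Oo A p r).card) * ((Nr A p ∩ Nr A r).card : ℤ)) := by
    intro r hr
    have h1 := ho1 r hr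
    have h2 := ho2 r hr
    have h3 := Ctx.degsplit A p r
    have h4 := hR r
    have h5 : (Nr A p ∩ Nr A r).card + (Oo A p r).card ≤ D := by
      unfold Oo
      omega
    zify at h1 h2 h5
    exact tau_row (D := (D : ℤ)) (by exact_mod_cast hw) (by exact_mod_cast hD3)
      (Int.natCast_nonneg _) h1 h2 h5
  have hsum := sum_le_sum hrow
  rw [sum_add_distrib, ← mul_sum, ← mul_sum, ← mul_sum] at hsum
  -- (i'), summed over the columns
  have hI2 : ∑ r ∈ L, (((w : ℤ) + 1 - (Oo A p r).card) * ((Nr A p ∩ Nr A r).card : ℤ)) ≤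
      D * β := by
    have h1 : ∀ r ∈ L, (((w : ℤ) + 1 - (Oo A p r).card) * ((Nr A p ∩ Nr A r).card : ℤ)) =
        ∑ u ∈ Nr A p, (if A r u = true then ((w : ℤ) + 1 - (Oo A p r).card) else 0) := by
      intro r _
      have h2 : Nr A p ∩ Nr A r = (Nr A p).filter (fun u => A r u = true) := by
        ext u
        rw [mem_inter, mem_filter, mem_Nr (r := r)]
      rw [h2, ← sum_filter, sum_const, nsmul_eq_mul, mul_comm]
    rw [sum_congr rfl h1, sum_comm]
    have h2 : ∀ u ∈ Nr A p,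
        ∑ r ∈ L, (if A r u = true then ((w : ℤ) + 1 - (Oo A p r).card) else 0) ≤ β := by
      intro u hu
      refine le_trans ?_ (hI u hu)
      rw [← sum_filter]
      apply sum_le_sum_of_subset_of_nonneg
      · intro r hr
        rw [mem_filter, hLmem] at hr
        rw [mem_sdiff, mem_sdiff]
        refine ⟨⟨mem_univ _, ?_⟩, hr.1.2⟩
        intro h3
        have := h.zero hu h3 hr.1.1
        rw [hr.2] at this
        simp at this
      · intro r hr _
        rw [mem_sdiff, mem_sdiff] at hr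
        have h4 := h.out_le hp hDw (by rintro rfl; exact hr.1.2 (h.pR u hu)) hr.2
        zify at h4
        linarith
    have h3 := sum_le_sum h2
    rw [sum_const, hp, nsmul_eq_mul] at h3
    exact h3
  -- (ii)
  have hpI : p ∉ I0 A p R := by
    unfold I0
    rw [mem_filter]
    rintro ⟨_, h1, _⟩
    exact h1 rfl
  have hII : ∑ r ∈ L, ((Nr A p ∩ Nr A r).card : ℤ) = D * (x - j) - H := by
    have h1 := card_comm2 (univ : Finset P) (Nr A p) (fun r u => A r u = true)
    have h2 : ∀ r, Nr A p ∩ Nr A r = (Nr A p).filter (fun u => A r u = true) := by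
      intro r
      ext u
      rw [mem_inter, mem_filter, mem_Nr (r := r)]
    have h3 : ∑ r, (Nr A p ∩ Nr A r).card = ∑ u ∈ Nr A p, (Nc A u).card := by
      simp only [h2]
      exact h1
    have h4 : ∑ u ∈ Nr A p, (Nc A u).card + ∑ u ∈ Nr A p, (Ww A R u).card = D * (x + 1) := by
      rw [← sum_add_distrib, sum_congr rfl (fun u hu => h.cardW hu), sum_const, hp, smul_eq_mul]
    have h5 : ∑ u ∈ Nr A p, (Ww A R u).card = ∑ r, (Hs A p R r).card := by
      have h6 := card_comm2 (univ : Finset P) (Nr A p) (fun r c => A r c = false ∧ r ∉ R c)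
      exact h6.symm
    have h6 : ∑ r, (Hs A p R r).card = ∑ u ∈ Nr A p, (Ww A R u \ I0 A p R).card +
        ∑ r ∈ I0 A p R, (Hs A p R r).card := by
      rw [← Ctx.sumHs, sum_sdiff (subset_univ _)]
    have h7 : ∑ r ∈ I0 A p R, (Nr A p ∩ Nr A r).card + ∑ r ∈ I0 A p R, (Hs A p R r).card =
        D * (I0 A p R).card := by
      rw [← sum_add_distrib]
      have h8 : ∀ r ∈ I0 A p R, (Nr A p ∩ Nr A r).card + (Hs A p R r).card = D := by
        intro r hr
        unfold I0 at hr
        rw [mem_filter] at hr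
        have h9 := h.part hr.2.1
        rw [hr.2.2, card_empty, hp] at h9
        omega
      rw [sum_congr rfl h8, sum_const, smul_eq_mul, mul_comm]
    have h8 : ∑ r, (Nr A p ∩ Nr A r).card = D + ∑ r ∈ L, (Nr A p ∩ Nr A r).card +
        ∑ r ∈ I0 A p R, (Nr A p ∩ Nr A r).card := by
      rw [← sum_sdiff (subset_univ (I0 A p R)),
        ← add_sum_erase (univ \ I0 A p R) _ (mem_sdiff.2 ⟨mem_univ p, hpI⟩), inter_self, hp]
    rw [h3] at h8
    rw [h5, h6] at h4
    zify at h4 h7 h8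
    rw [← hHdef] at h4
    rw [← hj] at h7
    linarith
  -- (iii)
  have hIII : ∑ r ∈ L, (((Oo A p r).card : ℤ) - 1) ≤ w * D + w * (x - j) := by
    have hpR := h.pR c hc
    have hIR : I0 A p R ⊆ univ \ R c := by
      intro r hr
      exact mem_sdiff.2 ⟨mem_univ _, Ctx.I0_notR hc hr⟩
    have h1 : L = (R c).erase p ∪ ((univ \ R c) \ I0 A p R) := by
      ext r
      rw [hLmem, mem_union, mem_erase, mem_sdiff, mem_sdiff]
      constructor
      · rintro ⟨h2, h3⟩
        by_cases h4 : r ∈ R c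
        · left; exact ⟨h2, h4⟩
        · right; exact ⟨⟨mem_univ _, h4⟩, h3⟩
      · rintro (⟨h2, h3⟩ | ⟨⟨_, h3⟩, h4⟩)
        · exact ⟨h2, fun h5 => Ctx.I0_notR hc h5 h3⟩
        · refine ⟨?_, h4⟩
          rintro rfl
          exact h3 hpR
    have h2 : Disjoint ((R c).erase p) ((univ \ R c) \ I0 A p R) := by
      rw [disjoint_left]
      intro r hr hr2
      rw [mem_sdiff, mem_sdiff] at hr2
      exact hr2.1.2 (mem_of_mem_erase hr)
    have h3 : ((univ \ R c) \ I0 A p R).card + (I0 A p R).card = x := by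
      have h4 := card_sdiff_add_card_eq_card hIR
      have h5 := card_sdiff_add_card_eq_card (subset_univ (R c))
      rw [card_univ, h.cP, (h.cp c hc).cR] at h5
      omega
    have h4 : ∑ r ∈ (univ \ R c) \ I0 A p R, (((Oo A p r).card : ℤ) - 1) ≤ w * (x - j) := by
      have h5 : ∀ r ∈ (univ \ R c) \ I0 A p R, (((Oo A p r).card : ℤ) - 1) ≤ w := by
        intro r hr
        have h6 : r ∈ L := by rw [h1]; exact mem_union_right _ hr
        have h7 := ho2 r h6
        zify at h7
        linarith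
      have h6 := sum_le_sum h5
      rw [sum_const, nsmul_eq_mul] at h6
      have h7 : (((univ \ R c) \ I0 A p R).card : ℤ) = x - j := by
        zify at h3
        rw [← hj] at h3
        linarith
      rw [h7] at h6
      linarith
    have h5 : ∑ r ∈ (R c).erase p, (((Oo A p r).card : ℤ) - 1) ≤ w * D := by
      have h6 := h.ORc hc
      have h7 : ∑ r ∈ R c, (Oo A p r).card = ∑ r ∈ (R c).erase p, (Oo A p r).card := by
        rw [← add_sum_erase _ _ hpR, Ctx.Oop, card_empty, zero_add]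
      have h8 : ((R c).erase p).card + 1 = k := by
        rw [card_erase_add_one hpR, (h.cp c hc).cR]
      have h9 : ∑ v ∈ Ac A p C c, (R c ∩ Nc A v).card ≤ w * D := by
        calc ∑ v ∈ Ac A p C c, (R c ∩ Nc A v).card ≤ ∑ v ∈ Ac A p C c, D :=
              sum_le_sum (fun v _ => (card_le_card inter_subset_right).trans (hC v))
          _ = w * D := by rw [sum_const, h.cardAc hp hDw hc, smul_eq_mul]
      rw [h7] at h6
      rw [sum_sub_distrib, sum_const, nsmul_eq_mul, mul_one]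
      zify at h6 h8 h9
      linarith
    rw [h1, sum_union h2]
    linarith
  -- `H ≥ D (w - j)`
  have hH2 : (D : ℤ) * (w - j) ≤ H := by
    have h1 : ∀ u ∈ Nr A p, (w : ℤ) - j ≤ ((Ww A R u \ I0 A p R).card : ℤ) := by
      intro u hu
      have h2 := h.cardW hu
      have h3 := hC u
      have h4 := card_inter_add_card_sdiff (Ww A R u) (I0 A p R)
      have h5 : (Ww A R u ∩ I0 A p R).card ≤ (I0 A p R).card := card_le_card inter_subset_right
      zify at h2 h3 h4 h5 hDw
      rw [← hj] at h5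
      linarith
    have h2 := sum_le_sum h1
    rw [sum_const, hp, nsmul_eq_mul] at h2
    exact h2
  have hw' : (3 : ℤ) ≤ w := by exact_mod_cast hw
  refine tau_fin (w := w) (D := D) (x := x) (j := j) (H := H) (β := β) hw'
    (by exact_mod_cast hD3) (by exact_mod_cast hDw) (Int.natCast_nonneg _) hH0 hH2 hβ ?_
  rw [hII] at hsum
  have h1 : ((w : ℤ) + 2) * ∑ r ∈ L,
      (((w : ℤ) + 1 - (Oo A p r).card) * ((Nr A p ∩ Nr A r).card : ℤ)) ≤
      ((w : ℤ) + 2) * (D * β) := mul_le_mul_of_nonneg_left hI2 (by linarith)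
  linarith

end SIFU
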