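import Pool.Agent.H99.SIF.UnH

/-! Unordered form of MP_008206_co: the trivial bound around a line of maximal degree. -/

set_option autoImplicit false

namespace SIFU
open Finset

variable {P Q : Type} [Fintype P] [Fintype Q] [DecidableEq P] [DecidableEq Q]

namespace Ctx

variable {A : P → Q → Bool} {k x D w : ℕ} {p : P} {R : Q → Finset P} {C : Q → Finset Q}

theorem I0_notR {c : Q} {r : P} (hc : c ∈ Nr A p) (hr : r ∈ I0 A p R) : r ∉ R c := by
  intro h1
  unfold I0 at hr
  rw [mem_filter] at hr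
  have h2 : c ∈ G A p R r := by
    unfold G
    exact mem_filter.2 ⟨hc, h1⟩
  rw [hr.2.2] at h2
  exact notMem_empty _ h2

/-- the pairs `(r, u)` with `r` in the copy of no line: by rows and by columns -/
theorem sumHs (A : P → Q → Bool) (p : P) (R : Q → Finset P) :
    ∑ r ∈ univ \ I0 A p R, (Hs A p R r).card = ∑ u ∈ Nr A p, (Ww A R u \ I0 A p R).card := by
  have h1 := card_comm2 (univ \ I0 A p R) (Nr A p) (fun r c => A r c = false ∧ r ∉ R c)
  have h2 : ∀ u, Ww A R u \ I0 A p R =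
      (univ \ I0 A p R).filter (fun r => A r u = false ∧ r ∉ R u) := by
    intro u
    ext r
    simp only [Ww, mem_sdiff, mem_filter, mem_univ, true_and]
    tauto
  simp only [h2]
  exact h1

/-- the trivial bound: `T ≥ w - w D + D l + (w + 1) |I0|` -/
theorem triv_raw (h : Ctx A k x p R C) (hp : (Nr A p).card = D) (hDw : D + w = x + 1)
    (hR : ∀ r, (Nr A r).card ≤ D) (hC : ∀ c, (Nc A c).card ≤ D) {l : ℕ}
    (hl : ∀ u ∈ Nr A p, l ≤ (Ww A R u \ I0 A p R).card) {c : Q} (hc : c ∈ Nr A p) :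
    ((E A).card : ℤ) + w + D * l + (w + 1) * (I0 A p R).card ≤
      ((x : ℤ) + 1) ^ 2 + (k + x - 1) + w * D := by
  have hE := h.Ecount hp
  have hsO := h.rowsplit hc (fun r => (Oo A p r).card)
  have hORc := h.ORc hc
  have hA : ∑ v ∈ Ac A p C c, (R c ∩ Nc A v).card ≤ w * D := by
    calc ∑ v ∈ Ac A p C c, (R c ∩ Nc A v).card ≤ ∑ v ∈ Ac A p C c, D :=
          sum_le_sum (fun v _ => (card_le_card inter_subset_right).trans (hC v))
      _ = w * D := by rw [sum_const, h.cardAc hp hDw hc, smul_eq_mul]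
  have hpt : ∀ r, r ≠ p → (Oo A p r).card + (w + 1) * (if r ∈ I0 A p R then 1 else 0) ≤
      (if r ∈ I0 A p R then (Hs A p R r).card else 0) + (w + 1) := by
    intro r hr
    by_cases h1 : r ∈ I0 A p R
    · have := h.out_le0 hp hR h1
      simp only [h1, if_true]
      omega
    · have := h.out_le hp hDw hr h1
      simp only [h1, if_false]
      omega
  have hsum : ∀ X : Finset P, p ∉ X →
      ∑ r ∈ X, (Oo A p r).card + (w + 1) * ∑ r ∈ X, (if r ∈ I0 A p R then 1 else 0) ≤
      ∑ r ∈ X, (if r ∈ I0 A p R then (Hs A p R r).card else 0) + (w + 1) * X.card := by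
    intro X hX
    have h1 : ∑ r ∈ X, ((Oo A p r).card + (w + 1) * (if r ∈ I0 A p R then 1 else 0)) ≤
        ∑ r ∈ X, ((if r ∈ I0 A p R then (Hs A p R r).card else 0) + (w + 1)) := by
      apply sum_le_sum
      intro r hr
      apply hpt
      rintro rfl
      exact hX hr
    rw [sum_add_distrib, sum_add_distrib, ← mul_sum, sum_const, smul_eq_mul] at h1
    rw [mul_comm (w + 1) X.card]
    exact h1
  have h1 := hsum ((Nc A c).erase p) (notMem_erase _ _)
  have h2 := hsum (Ww A R c) (pW hc)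
  have hsg := h.rowsplit hc (fun r => if r ∈ I0 A p R then (Hs A p R r).card else 0)
  have hsi := h.rowsplit hc (fun r => if r ∈ I0 A p R then 1 else 0)
  have hz1 : ∑ r ∈ R c, (if r ∈ I0 A p R then (Hs A p R r).card else 0) = 0 := by
    apply sum_eq_zero
    intro r hr
    rw [if_neg]
    intro h3
    exact I0_notR hc h3 hr
  have hz2 : ∑ r ∈ R c, (if r ∈ I0 A p R then 1 else 0) = 0 := by
    apply sum_eq_zero
    intro r hr
    rw [if_neg]
    intro h3
    exact I0_notR hc h3 hr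
  have hcJ : ∑ r, (if r ∈ I0 A p R then 1 else 0) = (I0 A p R).card := by
    rw [← card_filter]
    congr 1
    ext r
    simp
  have hHs : ∑ r, (Hs A p R r).card = ∑ r, (if r ∈ I0 A p R then (Hs A p R r).card else 0) +
      ∑ u ∈ Nr A p, (Ww A R u \ I0 A p R).card := by
    rw [← sumHs, ← sum_filter]
    have h3 : univ.filter (fun r => r ∈ I0 A p R) = I0 A p R := by ext r; simp
    rw [h3, add_comm]
    exact (sum_sdiff (subset_univ _)).symm
  have hDl : D * l ≤ ∑ u ∈ Nr A p, (Ww A R u \ I0 A p R).card := by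
    calc D * l = ∑ u ∈ Nr A p, l := by rw [sum_const, hp, smul_eq_mul]
      _ ≤ _ := sum_le_sum hl
  have hW := h.cardW hc
  have hpc : p ∈ Nc A c := mem_Nc.2 (mem_Nr.1 hc)
  have hcp : ((Nc A c).erase p).card + 1 = (Nc A c).card := by
    have h3 : 0 < (Nc A c).card := card_pos.2 ⟨p, hpc⟩
    rw [card_erase_of_mem hpc]
    omega
  beta_reduce at hsO hsg hsi
  rw [hz1] at hsg
  rw [hz2, hcJ] at hsi
  -- names for the sums
  generalize ∑ r, (Hs A p R r).card = sH at hE hHs
  generalize ∑ r, (Oo A p r).card = sO at hE hsO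
  generalize ∑ r ∈ R c, (Oo A p r).card = sR at hsO hORc
  generalize ∑ v ∈ Ac A p C c, (R c ∩ Nc A v).card = sA at hORc hA
  generalize ∑ r ∈ (Nc A c).erase p, (Oo A p r).card = o1 at h1 hsO
  generalize ∑ r ∈ Ww A R c, (Oo A p r).card = o2 at h2 hsO
  generalize ∑ r ∈ (Nc A c).erase p, (if r ∈ I0 A p R then 1 else 0) = i1 at h1 hsi
  generalize ∑ r ∈ Ww A R c, (if r ∈ I0 A p R then 1 else 0) = i2 at h2 hsi
  generalize ∑ r ∈ (Nc A c).erase p, (if r ∈ I0 A p R then (Hs A p R r).card else 0) = g1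
    at h1 hsg
  generalize ∑ r ∈ Ww A R c, (if r ∈ I0 A p R then (Hs A p R r).card else 0) = g2 at h2 hsg
  generalize ∑ r, (if r ∈ I0 A p R then (Hs A p R r).card else 0) = sg at hHs hsg
  generalize ∑ u ∈ Nr A p, (Ww A R u \ I0 A p R).card = sl at hHs hDl
  generalize (I0 A p R).card = j at hsi ⊢
  generalize ((Nc A c).erase p).card = x1 at h1 hcp
  generalize (Ww A R c).card = x2 at h2 hW
  generalize (Nc A c).card = y at hcp hW
  generalize (E A).card = e at hE ⊢
  have hx : x1 + x2 = x := by omega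
  zify at *
  have hxx : (x : ℤ) = D + w - 1 := by linarith
  have hx1 : (x1 : ℤ) = D + w - 1 - x2 := by linarith
  clear hpt hsum hz1 hz2 hcJ hp hR hC hl
  rw [hxx] at hE ⊢
  rw [hx1] at h1
  rw [hsi]
  have e1 : (e : ℤ) = D * (D + w) + (sR + o1 + o2) - (g1 + g2 + sl) := by
    have e2 : (sg : ℤ) = g1 + g2 := by linarith
    rw [hHs, hsO, e2] at hE
    linarith
  have e2 : (sR : ℤ) = k + sA - 1 := by linarith
  rw [e1, e2]
  linarith

/-- `T ≥ (D - w - 1) l - w (D - w - 2)` with `l` the least number of rows of the family outside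
the copy of a column of `N(p)` -/
theorem triv_bound (h : Ctx A k x p R C) (hp : (Nr A p).card = D) (hDw : D + w = x + 1)
    (hR : ∀ r, (Nr A r).card ≤ D) (hC : ∀ c, (Nc A c).card ≤ D) {l : ℕ}
    (hl : ∀ u ∈ Nr A p, l ≤ (Ww A R u \ I0 A p R).card) {c : Q} (hc : c ∈ Nr A p)
    (hlc : (Ww A R c \ I0 A p R).card = l) :
    ((E A).card : ℤ) + ((D : ℤ) - w - 1) * l ≤
      ((x : ℤ) + 1) ^ 2 + (k + x - 1) + w * ((D : ℤ) - w - 2) := by
  have h1 := h.triv_raw hp hDw hR hC hl hc
  have hW := h.cardW hc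
  have hJ : (Ww A R c).card ≤ l + (I0 A p R).card := by
    have h3 : Ww A R c ⊆ (Ww A R c \ I0 A p R) ∪ I0 A p R := by
      intro r hr
      by_cases h4 : r ∈ I0 A p R
      · exact mem_union_right _ h4
      · exact mem_union_left _ (mem_sdiff.2 ⟨hr, h4⟩)
    have h4 := (card_le_card h3).trans (card_union_le _ _)
    rw [hlc] at h4
    exact h4
  have hwJ : w ≤ l + (I0 A p R).card := by
    have := hC c
    omega
  have hw1 : (0 : ℤ) ≤ (w + 1) * ((l : ℤ) + (I0 A p R).card - w) := by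
    apply mul_nonneg (by positivity)
    zify at hwJ
    linarith
  linarith

/-- `T ≥ w - w D + D l` -/
theorem triv_bound2 (h : Ctx A k x p R C) (hp : (Nr A p).card = D) (hDw : D + w = x + 1)
    (hR : ∀ r, (Nr A r).card ≤ D) (hC : ∀ c, (Nc A c).card ≤ D) {l : ℕ}
    (hl : ∀ u ∈ Nr A p, l ≤ (Ww A R u \ I0 A p R).card) {c : Q} (hc : c ∈ Nr A p) :
    ((E A).card : ℤ) + w + D * l ≤ ((x : ℤ) + 1) ^ 2 + (k + x - 1) + w * D := by
  have h1 := h.triv_raw hp hDw hR hC hl hc
  have h2 : (0 : ℤ) ≤ (w + 1) * (I0 A p R).card := by positivity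
  linarith

end Ctx

end SIFU
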